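import Pool.Agent.Helper59.SX.Defs
import Pool.Agent.Helper59.EX.Defs

/-!
The definitions of `SX/Defs.lean` agree with those of `EX/Defs.lean`.
-/

open scoped TensorProduct InnerProductSpace

namespace Pool.Agent.Helper59.SX

section Rep

variable {A B H K : Type} [NonUnitalCStarAlgebra A] [NonUnitalCStarAlgebra B]
  [NormedAddCommGroup H] [InnerProductSpace ℂ H] [CompleteSpace H]
  [NormedAddCommGroup K] [InnerProductSpace ℂ K] [CompleteSpace K]

theorem IsRep.cont {π : A → H →ₗ[ℂ] H} (h : IsRep π) (a : A) : Continuous (π a) := by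
  have hsa : ∀ b : A, Star.star b = b → Continuous (π b) := by
    intro b hb
    have h1 : (π b).IsSymmetric := by
      intro v w
      have h2 := h.star b v w
      rwa [hb] at h2
    exact h1.continuous
  have h1 := hsa (a + Star.star a) (by rw [star_add, star_star, add_comm])
  have h2 := hsa (Complex.I • (a - Star.star a)) (by
    rw [star_smul, star_sub, star_star, Complex.star_def, Complex.conj_I, neg_smul, ← smul_neg,
      neg_sub])
  have h4 : a = (2⁻¹ : ℂ) • (a + Star.star a) +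
      (-Complex.I * 2⁻¹ : ℂ) • (Complex.I • (a - Star.star a)) := by
    rw [smul_smul]
    have h5 : -Complex.I * 2⁻¹ * Complex.I = (2⁻¹ : ℂ) := by
      have h6 := Complex.I_mul_I
      linear_combination (-2⁻¹ : ℂ) * h6
    rw [h5]
    module
  have h3 : (π a : H → H) = fun v => (2⁻¹ : ℂ) • π (a + Star.star a) v +
      (-Complex.I * 2⁻¹ : ℂ) • π (Complex.I • (a - Star.star a)) v := by
    funext v
    rw [← h.smul, ← h.smul, ← h.add]
    exact congrArg (fun b => π b v) h4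
  rw [h3]
  exact (h1.const_smul _).add (h2.const_smul _)

/-- The star homomorphism given by a representation. -/
noncomputable def IsRep.hom {π : A → H →ₗ[ℂ] H} (h : IsRep π) : A →⋆ₙₐ[ℂ] (H →L[ℂ] H) where
  toFun a := ⟨π a, h.cont a⟩
  map_smul' c a := by
    ext v
    exact h.smul c a v
  map_zero' := by
    ext v
    have h1 := h.smul 0 0 v
    rw [zero_smul, zero_smul] at h1
    exact h1
  map_add' a b := by
    ext v
    exact h.add a b v
  map_mul' a b := by
    ext v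
    exact h.mul a b v
  map_star' a := by
    rw [ContinuousLinearMap.star_eq_adjoint, ContinuousLinearMap.eq_adjoint_iff]
    intro v w
    exact h.star a v w

theorem isRep_of_hom (π : A →⋆ₙₐ[ℂ] (H →L[ℂ] H)) : IsRep (fun a => (π a : H →ₗ[ℂ] H)) where
  add a b v := by
    change π (a + b) v = π a v + π b v
    rw [map_add]
    rfl
  smul c a v := by
    change π (c • a) v = c • π a v
    rw [map_smul]
    rfl
  mul a b v := by
    change π (a * b) v = π a (π b v)
    rw [map_mul]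
    rfl
  star a v w := by
    change ⟪π (star a) v, w⟫_ℂ = ⟪v, π a w⟫_ℂ
    rw [map_star, ContinuousLinearMap.star_eq_adjoint, ContinuousLinearMap.adjoint_inner_left]

theorem tensorRep_sum_apply (π : A →⋆ₙₐ[ℂ] (H →L[ℂ] H)) (σ : B →⋆ₙₐ[ℂ] (K →L[ℂ] K)) {n : ℕ}
    (a : Fin n → A) (b : Fin n → B) (z : H ⊗[ℂ] K) :
    EX.tensorRep π σ (∑ i, a i ⊗ₜ[ℂ] b i) z =
      ∑ i, TensorProduct.map (π (a i) : H →ₗ[ℂ] H) (σ (b i) : K →ₗ[ℂ] K) z := by
  rw [map_sum, sum_apply]
  refine Finset.sum_congr rfl fun i _ => ?_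
  exact TensorProduct.mapL_apply _ _ _

theorem tensorRep_bound (x : A ⊗[ℂ] B) : ∃ c : ℝ, ∀ (H K : Type) [NormedAddCommGroup H]
    [InnerProductSpace ℂ H] [CompleteSpace H] [NormedAddCommGroup K] [InnerProductSpace ℂ K]
    [CompleteSpace K] (π : A →⋆ₙₐ[ℂ] (H →L[ℂ] H)) (σ : B →⋆ₙₐ[ℂ] (K →L[ℂ] K)),
    ‖EX.tensorRep π σ x‖ ≤ c := by
  induction x using TensorProduct.induction_on with
  | zero =>
    refine ⟨0, ?_⟩
    intro H K _ _ _ _ _ _ π σ
    rw [map_zero]
    refine ContinuousLinearMap.opNorm_le_bound _ le_rfl (fun z => ?_)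
    rw [zero_mul]
    change ‖(0 : H ⊗[ℂ] K)‖ ≤ 0
    rw [norm_zero]
  | add x y hx hy =>
    obtain ⟨c, hc⟩ := hx
    obtain ⟨d, hd⟩ := hy
    refine ⟨c + d, ?_⟩
    intro H K _ _ _ _ _ _ π σ
    rw [map_add]
    exact (ContinuousLinearMap.opNorm_add_le _ _).trans (add_le_add (hc H K π σ) (hd H K π σ))
  | tmul a b =>
    refine ⟨‖a‖ * ‖b‖, ?_⟩
    intro H K _ _ _ _ _ _ π σ
    have h1 : EX.tensorRep π σ (a ⊗ₜ[ℂ] b) = TensorProduct.mapL (π a) (σ b) := rfl
    rw [h1]
    refine (TensorProduct.norm_mapL_le _ _).trans ?_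
    exact mul_le_mul (NonUnitalStarAlgHom.norm_apply_le π a) (NonUnitalStarAlgHom.norm_apply_le σ b)
      (norm_nonneg _) (norm_nonneg _)

theorem exists_fin (x : A ⊗[ℂ] B) :
    ∃ (n : ℕ) (a : Fin n → A) (b : Fin n → B), x = ∑ i, a i ⊗ₜ[ℂ] b i := by
  obtain ⟨S, hS⟩ := TensorProduct.exists_finset x
  let e := S.equivFin.symm
  refine ⟨S.card, fun i => (e i).1.1, fun i => (e i).1.2, ?_⟩
  rw [hS, ← Finset.sum_coe_sort S, ← e.sum_comp]

theorem minLE_of_minNorm_le {x : A ⊗[ℂ] B} {C : ℝ} (h : EX.minNorm x ≤ C) : MinLE x C := by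
  intro H K _ _ _ _ _ _ π σ hπ hσ n a b hx z
  have h1 : ‖EX.tensorRep hπ.hom hσ.hom x‖ ≤ EX.minNorm x := by
    obtain ⟨c, hc⟩ := tensorRep_bound x
    refine le_csSup ⟨c, ?_⟩ ⟨H, K, inferInstance, inferInstance, inferInstance, inferInstance,
      inferInstance, inferInstance, hπ.hom, hσ.hom, rfl⟩
    rintro r ⟨H', K', i1, i2, i3, i4, i5, i6, π', σ', rfl⟩
    exact hc H' K' π' σ'
  have h2 := tensorRep_sum_apply hπ.hom hσ.hom a b z
  have h3 : ∑ i, TensorProduct.map (π (a i)) (σ (b i)) z = EX.tensorRep hπ.hom hσ.hom x z := by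
    rw [hx, h2]
    rfl
  rw [h3]
  refine (ContinuousLinearMap.le_opNorm _ z).trans ?_
  exact mul_le_mul_of_nonneg_right (h1.trans h) (norm_nonneg z)

theorem minNorm_le_of_minLE {x : A ⊗[ℂ] B} {C : ℝ} (hC : 0 ≤ C) (h : MinLE x C) :
    EX.minNorm x ≤ C := by
  refine Real.sSup_le ?_ hC
  rintro r ⟨H, K, i1, i2, i3, i4, i5, i6, π, σ, rfl⟩
  obtain ⟨n, a, b, hx⟩ := exists_fin x
  refine ContinuousLinearMap.opNorm_le_bound _ hC ?_
  intro z
  have h1 := h H K _ _ (isRep_of_hom π) (isRep_of_hom σ) n a b hx z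
  rw [hx, tensorRep_sum_apply]
  exact h1

end Rep

theorem exact_of_exact {A : Type} [NonUnitalCStarAlgebra A] (h : IsExactCstar A) :
    EX.IsExactCstar A := by
  intro B C _ _ q hq x h1 h2
  have h3 : ∀ ε > 0, ∃ N, ∀ n ≥ N, MinLE ((q : B →ₗ[ℂ] C).lTensor A (x n)) ε := by
    intro ε hε
    rw [Metric.tendsto_atTop] at h2
    obtain ⟨N, hN⟩ := h2 ε hε
    refine ⟨N, fun n hn => ?_⟩
    have h4 := hN n hn
    rw [Real.dist_eq, sub_zero] at h4
    exact minLE_of_minNorm_le ((le_abs_self _).trans h4.le)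
  have h5 : ∀ ε > 0, ∃ N, ∀ m ≥ N, ∀ n ≥ N, MinLE (x m - x n) ε := by
    intro ε hε
    obtain ⟨N, hN⟩ := h1 ε hε
    exact ⟨N, fun m hm n hn => minLE_of_minNorm_le (hN m hm n hn).le⟩
  obtain ⟨y, hy1, hy2⟩ := h B C q hq x h5 h3
  refine ⟨y, hy1, ?_⟩
  rw [Metric.tendsto_atTop]
  intro ε hε
  obtain ⟨N, hN⟩ := hy2 (ε / 2) (half_pos hε)
  refine ⟨N, fun n hn => ?_⟩
  have h6 := minNorm_le_of_minLE (half_pos hε).le (hN n hn)
  have h7 : 0 ≤ EX.minNorm (x n - y n) := by
    refine Real.sSup_nonneg ?_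
    rintro r ⟨H, K, i1, i2, i3, i4, i5, i6, π, σ, rfl⟩
    exact ContinuousLinearMap.opNorm_nonneg _
  rw [Real.dist_eq, sub_zero, abs_of_nonneg h7]
  linarith

section Full

variable {G : Type} [Group G]

/-- The full norm. -/
noncomputable def fullNorm (f : G →₀ ℂ) : ℝ :=
  sSup {r : ℝ | ∃ (H : Type) (_ : NormedAddCommGroup H) (_ : InnerProductSpace ℂ H)
      (_ : CompleteSpace H) (π : G →* unitary (H →L[ℂ] H)),
      r = ‖f.sum fun g c => c • (π g : H →L[ℂ] H)‖}

theorem unitary_norm_apply {H : Type} [NormedAddCommGroup H] [InnerProductSpace ℂ H]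
    [CompleteSpace H] (U : unitary (H →L[ℂ] H)) (v : H) : ‖(U : H →L[ℂ] H) v‖ = ‖v‖ := by
  have h1 := (Unitary.linearIsometryEquiv U).norm_map v
  rw [← h1]
  rfl

theorem unitary_norm_le {H : Type} [NormedAddCommGroup H] [InnerProductSpace ℂ H]
    [CompleteSpace H] (U : unitary (H →L[ℂ] H)) : ‖(U : H →L[ℂ] H)‖ ≤ 1 := by
  refine ContinuousLinearMap.opNorm_le_bound _ zero_le_one ?_
  intro v
  rw [unitary_norm_apply, one_mul]

omit [Group G] in
theorem sum_apply' {H : Type} [NormedAddCommGroup H] [InnerProductSpace ℂ H]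
    (T : G → H →L[ℂ] H) (f : G →₀ ℂ) (v : H) :
    (f.sum fun g c => c • T g) v = f.sum fun g c => c • T g v := by
  unfold Finsupp.sum
  rw [sum_apply]
  rfl

theorem exists_unitary {H : Type} [NormedAddCommGroup H] [InnerProductSpace ℂ H]
    [CompleteSpace H] (ρ : G → H →ₗ[ℂ] H) (h1 : ∀ v, ρ 1 v = v)
    (h2 : ∀ g h v, ρ (g * h) v = ρ g (ρ h v)) (h3 : ∀ g v, ‖ρ g v‖ = ‖v‖) :
    ∃ π : G →* unitary (H →L[ℂ] H), ∀ g v, (π g : H →L[ℂ] H) v = ρ g v := by
  let e : G → (H ≃ₗᵢ[ℂ] H) := fun g =>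
    { toLinearEquiv := LinearEquiv.ofLinearMap (ρ g) (ρ g⁻¹)
        (by
          ext v
          change ρ g (ρ g⁻¹ v) = v
          rw [← h2, mul_inv_cancel, h1])
        (by
          ext v
          change ρ g⁻¹ (ρ g v) = v
          rw [← h2, inv_mul_cancel, h1])
      norm_map' := h3 g }
  let U : G →* (H ≃ₗᵢ[ℂ] H) := MonoidHom.mk' e (fun g h => by
    ext v
    exact h2 g h v)
  refine ⟨(Unitary.linearIsometryEquiv (𝕜 := ℂ) (H := H)).symm.toMonoidHom.comp U, ?_⟩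
  intro g v
  rfl

theorem fullNorm_le_iff (f : G →₀ ℂ) (C : ℝ) : fullNorm f ≤ C ↔ FullLE f C := by
  constructor
  · intro h H _ _ _ ρ h1 h2 h3 v
    obtain ⟨π, hπ⟩ := exists_unitary ρ h1 h2 h3
    have h4 : f.sum (fun g c => c • ρ g v) = (f.sum fun g c => c • (π g : H →L[ℂ] H)) v := by
      rw [sum_apply']
      simp only [hπ]
    have h5 : ‖f.sum fun g c => c • (π g : H →L[ℂ] H)‖ ≤ fullNorm f := by
      refine le_csSup ?_ ⟨H, _, _, inferInstance, π, rfl⟩
      refine ⟨∑ g ∈ f.support, ‖f g‖, ?_⟩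
      rintro r ⟨H', _, _, _, π', rfl⟩
      unfold Finsupp.sum
      refine (norm_sum_le _ _).trans (Finset.sum_le_sum fun g _ => ?_)
      refine (norm_smul_le _ _).trans ?_
      exact mul_le_of_le_one_right (norm_nonneg _) (unitary_norm_le (π' g))
    rw [h4]
    refine (ContinuousLinearMap.le_opNorm _ v).trans ?_
    exact mul_le_mul_of_nonneg_right (h5.trans h) (norm_nonneg v)
  · intro h
    have hC : 0 ≤ C := by
      have h1 := h ℂ (fun _ => LinearMap.id) (fun v => rfl) (fun g h v => rfl) (fun g v => rfl) 1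
      rw [norm_one, mul_one] at h1
      exact (norm_nonneg _).trans h1
    refine Real.sSup_le ?_ hC
    rintro r ⟨H, i1, i2, i3, π, rfl⟩
    refine ContinuousLinearMap.opNorm_le_bound _ hC ?_
    intro v
    rw [sum_apply']
    refine h H (fun g => ((π g : H →L[ℂ] H) : H →ₗ[ℂ] H)) ?_ ?_ ?_ v
    · intro v
      change (π 1 : H →L[ℂ] H) v = v
      rw [map_one]
      rfl
    · intro g k v
      change (π (g * k) : H →L[ℂ] H) v = (π g : H →L[ℂ] H) ((π k : H →L[ℂ] H) v)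
      rw [map_mul]
      rfl
    · intro g v
      exact unitary_norm_apply (π g) v

theorem isFullCstar_iff (A : Type) [CStarAlgebra A] :
    IsFullCstar G A ↔ ∃ u : G →* unitary A, EX.IsFullCstar G A u := by
  constructor
  · rintro ⟨u, h1, h2, h3⟩
    have hu : ∀ g, u g ∈ unitary A := by
      intro g
      rw [Unitary.mem_iff, h1, ← map_mul, ← map_mul, inv_mul_cancel, mul_inv_cancel, map_one]
      exact ⟨rfl, rfl⟩
    let v : G →* unitary A := u.codRestrict (unitary A) hu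
    refine ⟨v, ⟨?_, ?_⟩⟩
    · exact h2
    · intro f
      change ‖f.sum fun g c => c • u g‖ = fullNorm f
      apply le_antisymm
      · rw [h3, ← fullNorm_le_iff]
      · rw [fullNorm_le_iff, ← h3]
  · rintro ⟨u, h1, h2⟩
    refine ⟨(unitary A).subtype.comp u, ?_, ?_, ?_⟩
    · intro g
      change star (u g : A) = (u g⁻¹ : A)
      rw [map_inv]
      rfl
    · exact h1
    · intro f C
      have h3 : ‖f.sum fun g c => c • (u g : A)‖ = fullNorm f := h2 f
      change ‖f.sum fun g c => c • (u g : A)‖ ≤ C ↔ _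
      rw [h3]
      exact fullNorm_le_iff f C

theorem fullNotExact_of (h : EX.FullNotExact G) : FullNotExact G := by
  obtain ⟨⟨A, iA, u, hu⟩, h2⟩ := h
  refine ⟨⟨A, iA, (isFullCstar_iff A).2 ⟨u, hu⟩⟩, ?_⟩
  intro B iB hB hex
  obtain ⟨v, hv⟩ := (isFullCstar_iff B).1 hB
  exact h2 B v hv (exact_of_exact hex)

end Full

end Pool.Agent.Helper59.SX
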