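import Pool.Agent.Helper59.SX.CostDefs
import Pool.Agent.Helper59.EXR.Cost3

/-!
The definitions of `SX/CostDefs.lean` agree with those of the library.
-/

open scoped InnerProductSpace

open MeasureTheory

namespace Pool.Agent.Helper59.SX

theorem isWalk_iff {G I : Type} [Group G] (s : I → G) (a : G) (l : List ((G × I) × Bool))
    (b : G) : IsWalk s a l b ↔ EX.IsWalk s a l b := by
  constructor
  · intro h
    induction h with
    | nil a => exact rfl
    | forward g i l b h ih => exact ⟨rfl, ih⟩
    | backward g i l b h ih => exact ⟨rfl, ih⟩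
  · induction l generalizing a with
    | nil =>
      intro h
      have h1 : a = b := h
      rw [h1]
      exact IsWalk.nil b
    | cons e l ih =>
      obtain ⟨⟨g, i⟩, t⟩ := e
      cases t with
      | true =>
        rintro ⟨h1, h2⟩
        have h3 : g = a := h1
        rw [← h3]
        exact IsWalk.forward g i l b (ih _ h2)
      | false =>
        rintro ⟨h1, h2⟩
        have h3 : g * s i = a := h1
        rw [← h3]
        exact IsWalk.backward g i l b (ih _ h2)

theorem delta_eq {X : Type} (x : X) : delta x = EX.delta x := rfl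

theorem cyclesAndStars_eq {G I : Type} [Group G] [Fintype I] (s : I → G) :
    cyclesAndStars s (fun e : G × I => EX.delta e) =
      {v | ∃ (a : G) (l : List ((G × I) × Bool)), EX.IsWalk s a l a ∧
        v = EX.walkVec l} ∪ Set.range (EX.starVec s) := by
  unfold cyclesAndStars
  simp only [isWalk_iff]
  rfl

theorem infDist_eq {E : Type} [NormedAddCommGroup E] [InnerProductSpace ℂ E] [CompleteSpace E]
    (V : Submodule ℂ E) (v : E) :
    Metric.infDist v (V : Set E) = ‖Vᗮ.starProjection v‖ := by
  have hU : (Vᗮᗮ : Submodule ℂ E) = V.topologicalClosure := V.orthogonal_orthogonal_eq_closure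
  have h1 : Vᗮ.starProjection v = v - (Vᗮᗮ).starProjection v := by
    refine Submodule.eq_starProjection_of_mem_orthogonal ?_ ?_
    · have h2 := (Vᗮᗮ).sub_starProjection_mem_orthogonal v
      rwa [Submodule.triorthogonal_eq_orthogonal] at h2
    · rw [sub_sub_cancel]
      exact Submodule.starProjection_apply_mem _ v
  have h2 : closure (V : Set E) = ((Vᗮᗮ : Submodule ℂ E) : Set E) := by
    rw [hU, Submodule.topologicalClosure_coe]
  rw [h1, Submodule.starProjection_minimal, ← Metric.infDist_closure, h2, Metric.infDist_eq_iInf]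
  simp only [dist_eq_norm]
  rfl

theorem l2Betti_eq {G I : Type} [Group G] [Fintype I] (s : I → G) :
    l2Betti s = EX.l2Betti s := by
  unfold l2Betti harmonicDim EX.l2Betti
  refine Finset.sum_congr rfl fun i _ => ?_
  have h1 := infDist_eq (Submodule.span ℂ (cyclesAndStars s (fun e : G × I => EX.delta e)))
    (EX.delta ((1 : G), i))
  have h2 : (Submodule.span ℂ (cyclesAndStars s (fun e : G × I => EX.delta e)))ᗮ =
      EX.l2Harmonic s := by
    rw [cyclesAndStars_eq]
    rfl
  have h3 : ∀ (W W' : Submodule ℂ (EX.L2 (G × I))) [W.HasOrthogonalProjection]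
      [W'.HasOrthogonalProjection] (v : EX.L2 (G × I)), W = W' →
      W.starProjection v = W'.starProjection v := by
    intro W W' _ _ v h
    subst h
    rfl
  rw [h3 _ _ _ h2] at h1
  rw [← h1]
  rfl

theorem bernoulliCostGE_iff (G : Type) [Group G] (C : ℝ) :
    BernoulliCostGE G C ↔ EXR.BernoulliCostGE G C := by
  have h0 : ∀ (n : ℕ) (g : G) (x : G → Fin (n + 1)),
      (fun h => x (g * h)) = EX.shift g⁻¹ x := by
    intro n g x
    funext h
    simp only [EX.shift, inv_inv]
  unfold BernoulliCostGE EXR.BernoulliCostGE
  simp only [isWalk_iff, h0]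
  rfl

end Pool.Agent.Helper59.SX
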