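import Mathlib

/-!
The first l2-Betti number and the cost of the Bernoulli actions.
-/

open scoped InnerProductSpace

open MeasureTheory

namespace Pool.Agent.Helper59.SX

/-- Walks in the Cayley graph of `G` with respect to the family `s : I → G`, with lists of oriented
edges: the edge `(g, i)` joins `g` to `g * s i`; the Boolean is `true` if it is passed from `g` to
`g * s i` and `false` if it is passed backwards. -/
inductive IsWalk {G I : Type} [Group G] (s : I → G) : G → List ((G × I) × Bool) → G → Prop
  | nil (a : G) : IsWalk s a [] a
  | forward (g : G) (i : I) (l : List ((G × I) × Bool)) (b : G) :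
      IsWalk s (g * s i) l b → IsWalk s g (((g, i), true) :: l) b
  | backward (g : G) (i : I) (l : List ((G × I) × Bool)) (b : G) :
      IsWalk s g l b → IsWalk s (g * s i) (((g, i), false) :: l) b

/-- For a family `δ` of vectors of `E` indexed by the edges of the Cayley graph: the vectors
`∑ ± δ e` of the closed walks and the vectors `∑ δ e - ∑ δ e` of the vertices `g`, where `e` runs
over the edges ending (starting) at `g`. -/
def cyclesAndStars {G I E : Type} [Group G] [Fintype I] [AddCommGroup E] (s : I → G)
    (δ : G × I → E) : Set E :=
  {v | ∃ (a : G) (l : List ((G × I) × Bool)), IsWalk s a l a ∧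
    v = (l.map fun e => if e.2 then δ e.1 else - δ e.1).sum} ∪
  Set.range fun g => ∑ i, (δ (g * (s i)⁻¹, i) - δ (g, i))

/-- The sum over `i` of the squares of the distances of the vectors `δ (1, i)` from the span of the
closed walks and the stars. (If `E` is complete, the distance of `v` from the span of `S` is `‖P v‖`
for the projection `P` to the orthogonal complement of `S`.) -/
noncomputable def harmonicDim {G I E : Type} [Group G] [Fintype I] [NormedAddCommGroup E]
    [InnerProductSpace ℂ E] (s : I → G) (δ : G × I → E) : ℝ :=
  ∑ i, Metric.infDist (δ (1, i)) (Submodule.span ℂ (cyclesAndStars s δ)) ^ 2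

open Classical in
/-- The standard basis vector at `x` of the Hilbert space `l2(X)`. -/
noncomputable def delta {X : Type} (x : X) : lp (fun _ : X => ℂ) 2 := lp.single 2 x (1 : ℂ)

/-- The first l2-Betti number of the group generated by the family `s`: the dimension over the
group, `∑ ‖P δ(1,i)‖²`, of the space of the harmonic square summable 1-cocycles, that is, of the
orthogonal complement in `l2` of the edges of the closed walks and the coboundaries. -/
noncomputable def l2Betti {G I : Type} [Group G] [Fintype I] (s : I → G) : ℝ :=
  harmonicDim s fun e => delta e

/-- The uniform Bernoulli measure on `G → E`. -/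
noncomputable def bernoulli (G E : Type) [Fintype E] [Nonempty E] [MeasurableSpace E] :
    Measure (G → E) := Measure.infinitePi fun _ : G => (PMF.uniformOfFintype E).toMeasure

/-- All graphings with finitely many elements of the Bernoulli actions of `G` with finite uniform
base have cost at least `C`. A graphing is given by elements `t j` of `G` and measurable sets
`A j`: the point `x` is joined to its translate by `t j` if `x ∈ A j`. -/
def BernoulliCostGE (G : Type) [Group G] (C : ℝ) : Prop :=
  ∀ (n : ℕ) (J : Type) [Fintype J] (t : J → G) (A : J → Set (G → Fin (n + 1))),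
    (∀ j, MeasurableSet (A j)) →
    (∀ᵐ x ∂(bernoulli G (Fin (n + 1))), ∀ g : G, ∃ l : List ((G × J) × Bool), IsWalk t 1 l g ∧
      ∀ e ∈ l, (fun h => x (e.1.1 * h)) ∈ A e.1.2) →
    C ≤ ∑ j, (bernoulli G (Fin (n + 1))).real (A j)

end Pool.Agent.Helper59.SX
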