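import Mathlib

/-!
Exact C*-algebras and full group C*-algebras of discrete groups.
-/

open scoped TensorProduct InnerProductSpace

namespace Pool.Agent.Helper59.SX

/-- `pi` is a `*`-representation of the C*-algebra `A` on the Hilbert space `H` (the operators
`pi a` are everywhere defined and have an adjoint, hence they are bounded). -/
structure IsRep {A H : Type} [NonUnitalCStarAlgebra A] [NormedAddCommGroup H]
    [InnerProductSpace ℂ H] (π : A → H →ₗ[ℂ] H) : Prop where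
  add : ∀ a b v, π (a + b) v = π a v + π b v
  smul : ∀ (c : ℂ) a v, π (c • a) v = c • π a v
  mul : ∀ a b v, π (a * b) v = π a (π b v)
  star : ∀ a v w, ⟪π (star a) v, w⟫_ℂ = ⟪v, π a w⟫_ℂ

/-- For all `*`-representations `pi` of `A` on `H` and `sigma` of `B` on `K`, the operator
`(pi ⊗ sigma)(x) = ∑ pi(a_i) ⊗ sigma(b_i)` on the inner product space `H ⊗ K` has norm at most
`C`, where `x = ∑ a_i ⊗ b_i`. -/
def MinLEOn (A B H K : Type) [NonUnitalCStarAlgebra A] [NonUnitalCStarAlgebra B]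
    [NormedAddCommGroup H] [InnerProductSpace ℂ H] [NormedAddCommGroup K] [InnerProductSpace ℂ K]
    (x : A ⊗[ℂ] B) (C : ℝ) : Prop :=
  ∀ (π : A → H →ₗ[ℂ] H) (σ : B → K →ₗ[ℂ] K), IsRep π → IsRep σ →
    ∀ (n : ℕ) (a : Fin n → A) (b : Fin n → B), x = ∑ i, a i ⊗ₜ[ℂ] b i → ∀ z : H ⊗[ℂ] K,
      ‖∑ i, TensorProduct.map (π (a i)) (σ (b i)) z‖ ≤ C * ‖z‖

/-- The minimal (spatial) C*-norm of the element `x` of `A ⊗ B` is at most `C`: the operator
`(pi ⊗ sigma)(x)` has norm at most `C` for all `*`-representations `pi` of `A` and `sigma` of `B`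
on Hilbert spaces. -/
def MinLE {A B : Type} [NonUnitalCStarAlgebra A] [NonUnitalCStarAlgebra B] (x : A ⊗[ℂ] B)
    (C : ℝ) : Prop :=
  ∀ (H K : Type) [NormedAddCommGroup H] [InnerProductSpace ℂ H] [CompleteSpace H]
    [NormedAddCommGroup K] [InnerProductSpace ℂ K] [CompleteSpace K], MinLEOn A B H K x C

/-- For every surjective `*`-homomorphism `q : B → C` the kernel of `A ⊗min B → A ⊗min C` is the
closure `A ⊗min ker q` of the span of the `a ⊗ b` with `q b = 0`. Elements of `A ⊗min B` are given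
by Cauchy sequences in `A ⊗ B`. -/
def TensorExact (A B C : Type) [NonUnitalCStarAlgebra A] [NonUnitalCStarAlgebra B]
    [NonUnitalCStarAlgebra C] : Prop :=
  ∀ q : B →⋆ₙₐ[ℂ] C, Function.Surjective q → ∀ x : ℕ → A ⊗[ℂ] B,
    (∀ ε > 0, ∃ N, ∀ m ≥ N, ∀ n ≥ N, MinLE (x m - x n) ε) →
    (∀ ε > 0, ∃ N, ∀ n ≥ N, MinLE ((q : B →ₗ[ℂ] C).lTensor A (x n)) ε) →
    ∃ y : ℕ → A ⊗[ℂ] B, (∀ n, y n ∈ Submodule.span ℂ {w | ∃ a b, q b = 0 ∧ w = a ⊗ₜ[ℂ] b}) ∧
      ∀ ε > 0, ∃ N, ∀ n ≥ N, MinLE (x n - y n) ε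

/-- The C*-algebra `A` is exact. -/
def IsExactCstar (A : Type) [NonUnitalCStarAlgebra A] : Prop :=
  ∀ (B C : Type) [NonUnitalCStarAlgebra B] [NonUnitalCStarAlgebra C], TensorExact A B C

/-- For every unitary representation `rho` of the group `G` on `H` the operator `∑ f(g) rho(g)`
has norm at most `C`. -/
def FullLEOn (G H : Type) [Group G] [NormedAddCommGroup H] [InnerProductSpace ℂ H]
    (f : G →₀ ℂ) (C : ℝ) : Prop :=
  ∀ ρ : G → H →ₗ[ℂ] H, (∀ v, ρ 1 v = v) → (∀ g h v, ρ (g * h) v = ρ g (ρ h v)) →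
    (∀ g v, ‖ρ g v‖ = ‖v‖) → ∀ v, ‖f.sum fun g c => c • ρ g v‖ ≤ C * ‖v‖

/-- The norm of the element `f` of the group algebra of `G` in the full group C*-algebra is at
most `C`: for every unitary representation `rho` of `G` on a Hilbert space the norm of `rho(f)` is
at most `C`. -/
def FullLE {G : Type} [Group G] (f : G →₀ ℂ) (C : ℝ) : Prop :=
  ∀ (H : Type) [NormedAddCommGroup H] [InnerProductSpace ℂ H] [CompleteSpace H], FullLEOn G H f C

/-- The unital C*-algebra `A` is the full group C*-algebra of `G`: for some homomorphism `u` from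
`G` to the unitary group of `A` the span of `u(G)` is dense in `A` and the norm of
`∑ f(g) u(g)` is the full norm of `f`, for all `f` in the group algebra. -/
def IsFullCstar (G A : Type) [Group G] [CStarAlgebra A] : Prop :=
  ∃ u : G →* A, (∀ g, star (u g) = u g⁻¹) ∧ Dense (Submodule.span ℂ (Set.range u) : Set A) ∧
    ∀ (f : G →₀ ℂ) (C : ℝ), ‖f.sum fun g c => c • u g‖ ≤ C ↔ FullLE f C

/-- The full group C*-algebra of `G` (it exists) is not exact. -/
def FullNotExact (G : Type) [Group G] : Prop :=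
  (∃ (A : Type) (_ : CStarAlgebra A), IsFullCstar G A) ∧
  ∀ (A : Type) [CStarAlgebra A], IsFullCstar G A → ¬ IsExactCstar A

/-- `Γ` has a subgroup that maps onto `W`. -/
def HasSubquotient (Γ W : Type) [Group Γ] [Group W] : Prop :=
  ∃ (Λ : Subgroup Γ) (p : Λ →* W), Function.Surjective p

end Pool.Agent.Helper59.SX
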