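import Pool.Agent.Helper59.SX.PPDefs
import Pool.Agent.Helper59.PP.MH
import Pool.Agent.Helper59.PP.LM

/-!
The definitions of `SX/PPDefs.lean` agree with those of the library.
-/

open Matrix OnePoint Topology
open scoped MatrixGroups

namespace Pool.Agent.Helper59.SX

theorem isPP_iff (f : ℝ ≃ₜ ℝ) : IsPP f ↔ PP.IsPP f := Iff.rfl

theorem small_iff (W : Subgroup (ℝ ≃ₜ ℝ)) : HasSmallFreePairs W ↔ PP.HasSmallFreePairs W :=
  Iff.rfl

theorem lodhaMoore_eq : LodhaMoore = PP.LodhaMoore := rfl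

theorem mem_monodLine (A : Subring ℝ) (f : ℝ ≃ₜ ℝ) : f ∈ PP.MonodLine A ↔ InMonod A f := by
  constructor
  · rintro ⟨h, -⟩
    exact h
  · intro h
    exact ⟨h, PP.toProj_infty f⟩

end Pool.Agent.Helper59.SX
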